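import Pool.Agent.W295.NL.FinD

/-!
MP_043404_co (Rodney's conjecture): every finite centrally nilpotent loop of order at least two has a
duplex, and so does every Latin square obtained from such loops, or from any Latin squares with a
duplex, by repeated extensions with fibres of size two (arbitrary) or with all blocks isotopic to
groups of odd order.
-/

set_option autoImplicit false

namespace Pool.Agent.Results.MP_043404_co.NilpotentDuplex

open Pool.Agent.W295.NL

/-- Every finite centrally nilpotent loop of order at least two has a duplex, and every finite
Latin square in the class `DTower` has a duplex. -/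
theorem result :
    (∀ (Q : Type) [Finite Q] (mul : Q → Q → Q) (e : Q), Nilpotent mul e → 2 ≤ Nat.card Q →
      HasDuplex mul) ∧
    ∀ (Q : Type) [Finite Q] (L : Q → Q → Q), DTower L → HasDuplex L :=
  ⟨fun Q _ mul e h h2 => duplex_of_cls h.cls h2, fun Q hf L h => h.hasDuplex hf⟩

end Pool.Agent.Results.MP_043404_co.NilpotentDuplex
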